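import Mathlib

/-! Resolution over parities: the definitions used in the statement. -/

set_option autoImplicit false

namespace ParityResolution

/-- A proof line about the points `x` of an `F_2`-vector space `V`: the disjunction of finitely many linear equations
`e.1 x = e.2` and of an arbitrary Boolean function `fn` of `t` linear forms. -/
structure Line (V : Type) [AddCommGroup V] [Module (ZMod 2) V] (t : ℕ) where
  /-- the linear equations -/
  eqs : Finset ((V →ₗ[ZMod 2] ZMod 2) × ZMod 2)
  /-- the `t` linear forms ... -/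
  par : Fin t → (V →ₗ[ZMod 2] ZMod 2)
  /-- ... and the function of their values -/
  fn : (Fin t → ZMod 2) → Prop

variable {V : Type} [AddCommGroup V] [Module (ZMod 2) V] {t : ℕ}

/-- The line is true at `x`. -/
def Line.Holds (L : Line V t) (x : V) : Prop :=
  (∃ e ∈ L.eqs, e.1 x = e.2) ∨ L.fn fun i => L.par i x

/-- The lines `L 0, ..., L (N - 1)` are a refutation of a family of axioms. `Ax` is the set of the false sets of the
axioms. Every line is implied by one axiom, or by at most `f` earlier lines (in any sound way), and some line is false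
everywhere. -/
def Refutes (Ax : Set (Set V)) (f : ℕ) {N : ℕ} (L : Fin N → Line V t) : Prop :=
  (∀ i, (∃ Q ∈ Ax, ∀ x, ¬ (L i).Holds x → x ∈ Q) ∨
    ∃ J : Finset (Fin N), J.card ≤ f ∧ (∀ j ∈ J, j < i) ∧ ∀ x, (∀ j ∈ J, (L j).Holds x) → (L i).Holds x) ∧
  ∃ i, ∀ x, ¬ (L i).Holds x

/-- The clauses of the binary pigeonhole principle with `m` pigeons and `2 ^ l` holes: pigeon `i` sits in the hole with
the binary digits `x i`, and the clause `(i, j, h)` is false if `x i = x j = h`. -/
def pigeonClauses (m l : ℕ) : Set (Set (Fin m → Fin l → ZMod 2)) :=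
  {Q | ∃ i j h, i ≠ j ∧ Q = {x | x i = h ∧ x j = h}}

/-- The axioms `x i ≠ x j`. -/
def pigeonAxioms (m l : ℕ) : Set (Set (Fin m → Fin l → ZMod 2)) :=
  {Q | ∃ i j, i ≠ j ∧ Q = {x | x i = x j}}

end ParityResolution
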