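import Pool.Agent.H62.PR.Defs

/-! Refutations exist as soon as every point falsifies some axiom (decision tree). -/

set_option autoImplicit false
open scoped Classical

namespace ParityResolution

variable {V : Type} [AddCommGroup V] [Module (ZMod 2) V] [Finite V]

/-- the nodes of the decision tree -/
abbrev Node (n : ℕ) := Σ k : Fin (n + 1), (Fin (k : ℕ) → ZMod 2)

/-- the line of a node -/
noncomputable def nodeLine {n : ℕ} (b : Module.Basis (Fin n) (ZMod 2) V) (s : Node n) : Line V 0 where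
  eqs := Finset.univ.image (fun j : Fin (s.1 : ℕ) => (b.coord (Fin.castLE (Nat.lt_succ_iff.1 s.1.2) j), s.2 j + 1))
  par := Fin.elim0
  fn := fun _ => False

theorem zmod2_eq_add_one {a c : ZMod 2} : a ≠ c + 1 ↔ a = c := by
  revert a c
  decide

theorem zmod2_cases (z : ZMod 2) : z = 0 ∨ z = 1 := by
  revert z
  decide

theorem nodeLine_false {n : ℕ} (b : Module.Basis (Fin n) (ZMod 2) V) (s : Node n) (x : V) :
    ¬ (nodeLine b s).Holds x ↔ ∀ j : Fin (s.1 : ℕ), b.coord (Fin.castLE (Nat.lt_succ_iff.1 s.1.2) j) x = s.2 j := by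
  unfold Line.Holds nodeLine
  constructor
  · intro h j
    rw [← zmod2_eq_add_one]
    intro h1
    exact h (Or.inl ⟨_, Finset.mem_image_of_mem _ (Finset.mem_univ j), h1⟩)
  · rintro h (⟨e, he, h1⟩ | h1)
    · obtain ⟨j, -, rfl⟩ := Finset.mem_image.1 he
      exact zmod2_eq_add_one.2 (h j) h1
    · exact h1

theorem exists_refutation (Ax : Set (Set V)) (h : ∀ x, ∃ Q ∈ Ax, x ∈ Q) :
    ∃ L : Fin (2 ^ (Module.finrank (ZMod 2) V + 1) - 1) → Line V 0, Refutes Ax 2 L := by
  set n := Module.finrank (ZMod 2) V with hn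
  let b : Module.Basis (Fin n) (ZMod 2) V := Module.finBasis (ZMod 2) V
  have hcard : Fintype.card (Node n) = 2 ^ (n + 1) - 1 := by
    rw [Fintype.card_sigma]
    simp only [Fintype.card_fun, ZMod.card, Fintype.card_fin]
    rw [Fin.sum_univ_eq_sum_range (fun k => 2 ^ k), Nat.geomSum_eq (le_refl 2)]
    simp
  rw [← hcard]
  let e0 : Fin (Fintype.card (Node n)) ≃ Node n := (Fintype.equivFin (Node n)).symm
  let ρ : Fin (Fintype.card (Node n)) → ℕ := fun i => n - (e0 i).1
  let e : Fin (Fintype.card (Node n)) ≃ Node n := (Tuple.sort ρ).trans e0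
  have hmono : Monotone (fun i => n - ((e i).1 : ℕ)) := Tuple.monotone_sort ρ
  have hlt : ∀ (s : Node n) (i), (e i).1 < s.1 → e.symm s < i := by
    intro s i hs
    by_contra hc
    have h1 := hmono (not_lt.1 hc)
    simp only [Equiv.apply_symm_apply] at h1
    have h2 := s.1.2
    have h3 : ((e i).1 : ℕ) < s.1 := hs
    omega
  refine ⟨fun i => nodeLine b (e i), ?_, ?_⟩
  · intro i
    obtain ⟨s, hs⟩ : ∃ s, s = e i := ⟨_, rfl⟩
    rcases Nat.lt_or_ge (s.1 : ℕ) n with hk | hk
    · right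
      let c : ZMod 2 → Node n := fun z => ⟨⟨s.1 + 1, by omega⟩, Fin.snoc s.2 z⟩
      refine ⟨{e.symm (c 0), e.symm (c 1)}, Finset.card_le_two, ?_, ?_⟩
      · intro j hj
        have : ∃ z, j = e.symm (c z) := by
          rw [Finset.mem_insert, Finset.mem_singleton] at hj
          rcases hj with hj | hj
          · exact ⟨0, hj⟩
          · exact ⟨1, hj⟩
        obtain ⟨z, rfl⟩ := this
        apply hlt
        rw [← hs, Fin.lt_def]
        exact Nat.lt_succ_self _
      · intro x hx
        by_contra hc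
        have hc' := (nodeLine_false b _ x).1 hc
        rw [← hs] at hc'
        obtain ⟨z, hz⟩ : ∃ z, z = b.coord (Fin.castLE (by omega : (s.1 : ℕ) + 1 ≤ n) (Fin.last _)) x := ⟨_, rfl⟩
        have hmem : e.symm (c z) ∈ ({e.symm (c 0), e.symm (c 1)} : Finset _) := by
          have : z = 0 ∨ z = 1 := zmod2_cases z
          rw [Finset.mem_insert, Finset.mem_singleton]
          rcases this with h0 | h0
          · left; rw [h0]
          · right; rw [h0]
        have h1 := hx _ hmem
        simp only [Equiv.apply_symm_apply] at h1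
        refine absurd h1 ((nodeLine_false b (c z) x).2 ?_)
        intro j
        refine Fin.lastCases ?_ (fun j => ?_) j
        · change _ = (Fin.snoc s.2 z : Fin ((s.1 : ℕ) + 1) → ZMod 2) (Fin.last _)
          rw [Fin.snoc_last, hz]
        · change _ = (Fin.snoc s.2 z : Fin ((s.1 : ℕ) + 1) → ZMod 2) (Fin.castSucc j)
          rw [Fin.snoc_castSucc]
          exact hc' j
    · left
      have hk' : (s.1 : ℕ) = n := le_antisymm (Nat.lt_succ_iff.1 s.1.2) hk
      let a : Fin n → ZMod 2 := fun j => s.2 (Fin.cast hk'.symm j)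
      obtain ⟨Q, hQ, hxQ⟩ := h (b.equivFun.symm a)
      refine ⟨Q, hQ, fun y hy => ?_⟩
      have hy' := (nodeLine_false b _ y).1 hy
      rw [← hs] at hy'
      have : y = b.equivFun.symm a := by
        rw [LinearEquiv.eq_symm_apply]
        funext j
        rw [Module.Basis.equivFun_apply]
        exact hy' (Fin.cast hk'.symm j)
      rw [this]
      exact hxQ
  · refine ⟨e.symm ⟨⟨0, Nat.succ_pos _⟩, Fin.elim0⟩, fun x => ?_⟩
    have h1 : e (e.symm ⟨⟨0, Nat.succ_pos _⟩, Fin.elim0⟩) = ⟨⟨0, Nat.succ_pos _⟩, Fin.elim0⟩ := Equiv.apply_symm_apply _ _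
    change ¬ (nodeLine b (e (e.symm ⟨⟨0, Nat.succ_pos _⟩, Fin.elim0⟩))).Holds x
    rw [h1]
    exact (nodeLine_false b _ x).2 fun j => j.elim0

theorem pigeon_cover {m l : ℕ} (h : 2 ^ l < m) (x : Fin m → Fin l → ZMod 2) : ∃ Q ∈ pigeonClauses m l, x ∈ Q := by
  obtain ⟨i, j, hij, hx⟩ := Fintype.exists_ne_map_eq_of_card_lt x (by
    rw [Fintype.card_fun, ZMod.card, Fintype.card_fin, Fintype.card_fin]
    exact h)
  exact ⟨_, ⟨i, j, x j, hij, rfl⟩, hx, rfl⟩

theorem exists_refutation_pigeon {m l : ℕ} (h : 2 ^ l < m) :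
    ∃ L : Fin (2 ^ (m * l + 1) - 1) → Line (Fin m → Fin l → ZMod 2) 0, Refutes (pigeonClauses m l) 2 L := by
  have h1 := exists_refutation (pigeonClauses m l) (pigeon_cover h)
  have h2 : Module.finrank (ZMod 2) (Fin m → Fin l → ZMod 2) = m * l := by
    rw [Module.finrank_pi_fintype]
    simp
  rwa [h2] at h1

/-- a refutation from the clauses is a refutation from the axioms `x i ≠ x j` -/
theorem refutes_axioms {m l t f N : ℕ} {L : Fin N → Line (Fin m → Fin l → ZMod 2) t}
    (h : Refutes (pigeonClauses m l) f L) : Refutes (pigeonAxioms m l) f L := by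
  refine ⟨fun i => ?_, h.2⟩
  rcases h.1 i with ⟨Q, ⟨p, p', a, hp, rfl⟩, hQ⟩ | hJ
  · left
    exact ⟨_, ⟨p, p', hp, rfl⟩, fun x hx => (hQ x hx).1.trans (hQ x hx).2.symm⟩
  · exact Or.inr hJ

end ParityResolution
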