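import Pool.Agent.H62.PR.Defs

/-! The false set of a line: contained in a coset of a small subspace, or invariant under a big subspace. -/

set_option autoImplicit false
open scoped Classical

namespace ParityResolution

variable {V : Type} [AddCommGroup V] [Module (ZMod 2) V] [Finite V] {t : ℕ}

/-- the common kernel of the linear forms of the equations -/
noncomputable def Line.kerEqs (L : Line V t) : Submodule (ZMod 2) V := ⨅ e ∈ L.eqs, LinearMap.ker e.1

/-- the common kernel of the `t` linear forms -/
noncomputable def Line.kerPar (L : Line V t) : Submodule (ZMod 2) V := LinearMap.ker (LinearMap.pi L.par)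

theorem mem_kerEqs (L : Line V t) (w : V) : w ∈ L.kerEqs ↔ ∀ e ∈ L.eqs, e.1 w = 0 := by
  simp [Line.kerEqs, Submodule.mem_iInf]

theorem mem_kerPar (L : Line V t) (w : V) : w ∈ L.kerPar ↔ ∀ i, L.par i w = 0 := by
  rw [Line.kerPar, LinearMap.mem_ker]
  constructor
  · intro h i
    have := congrFun h i
    simpa using this
  · intro h
    funext i
    simpa using h i

theorem kerPar_rank (L : Line V t) : Module.finrank (ZMod 2) V ≤ Module.finrank (ZMod 2) L.kerPar + t := by
  have h := LinearMap.finrank_range_add_finrank_ker (LinearMap.pi L.par)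
  have h2 : Module.finrank (ZMod 2) (LinearMap.range (LinearMap.pi L.par)) ≤ t := by
    refine (Submodule.finrank_le _).trans ?_
    rw [Module.finrank_pi, Fintype.card_fin]
  unfold Line.kerPar
  omega

theorem zmod2_ne {a b c : ZMod 2} (h : a ≠ c) (h' : b ≠ c) : a = b := by
  revert a b c
  decide

theorem line_dich (L : Line V t) (r : ℕ) :
    (∃ (W : Submodule (ZMod 2) V) (x0 : V), Module.finrank (ZMod 2) W + r ≤ Module.finrank (ZMod 2) V ∧
      ∀ x, ¬ L.Holds x → x - x0 ∈ W) ∨
    ∃ W : Submodule (ZMod 2) V, Module.finrank (ZMod 2) V < Module.finrank (ZMod 2) W + (r + t) ∧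
      ∀ x, ¬ L.Holds x → ∀ w ∈ W, ¬ L.Holds (x + w) := by
  by_cases hr : Module.finrank (ZMod 2) L.kerEqs + r ≤ Module.finrank (ZMod 2) V
  · left
    by_cases hx : ∃ x0, ¬ L.Holds x0
    · obtain ⟨x0, hx0⟩ := hx
      refine ⟨L.kerEqs, x0, hr, fun x hx => ?_⟩
      rw [mem_kerEqs]
      intro e he
      have h1 : e.1 x ≠ e.2 := fun h => hx (Or.inl ⟨e, he, h⟩)
      have h2 : e.1 x0 ≠ e.2 := fun h => hx0 (Or.inl ⟨e, he, h⟩)
      rw [map_sub, zmod2_ne h1 h2, sub_self]
    · exact ⟨L.kerEqs, 0, hr, fun x h => absurd ⟨x, h⟩ hx⟩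
  · right
    refine ⟨L.kerEqs ⊓ L.kerPar, ?_, ?_⟩
    · have h1 := Submodule.finrank_sup_add_finrank_inf_eq L.kerEqs L.kerPar
      have h2 : Module.finrank (ZMod 2) ↥(L.kerEqs ⊔ L.kerPar) ≤ Module.finrank (ZMod 2) V := Submodule.finrank_le _
      have h3 := kerPar_rank L
      omega
    · intro x hx w hw hc
      obtain ⟨hw1, hw2⟩ := hw
      have hw1' := (mem_kerEqs L w).1 hw1
      have hw2' := (mem_kerPar L w).1 hw2
      apply hx
      rcases hc with ⟨e, he, h⟩ | h
      · left
        refine ⟨e, he, ?_⟩
        rw [map_add, hw1' e he, add_zero] at h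
        exact h
      · right
        have : (fun i => L.par i (x + w)) = fun i => L.par i x := by
          funext i
          rw [map_add, hw2' i, add_zero]
        rw [this] at h
        exact h

end ParityResolution
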